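import Mathlib
import Pool.Agent.W979.TE.Defs3

set_option autoImplicit false
set_option maxHeartbeats 4000000

open Classical

namespace Pool.Agent.W916.TE3W2

open Pool.Agent.W715.BC Pool.Agent.W979.TE3

theorem Lk_symm {A B : Type} [Fintype B] (r : A → B → Prop) (L : ℕ) {x x' : A}
    (h : Lk r L x x') : Lk r L x' x := by
  obtain ⟨h1, h2, h3⟩ := h
  have e : cn r x x' = cn r x' x := by
    ext y; simp [cn, and_comm]
  exact ⟨h1.symm, e ▸ h2, e ▸ h3⟩

theorem Ft_swap {A B : Type} [Fintype A] [Fintype B] (r : A → B → Prop) (L : ℕ) {k m : ℕ}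
    (Q : Fin k → A) (w : Fin m → A) :
    (∀ i, Q i ∈ Ft r L w) ↔ (∀ j, w j ∈ Ft r L Q) := by
  simp only [Ft, Finset.mem_filter, Finset.mem_univ, true_and]
  constructor
  · intro h j i; exact Lk_symm r L (h i j)
  · intro h i j; exact Lk_symm r L (h j i)

theorem card_tuples {A : Type} [Fintype A] (X : Finset A) (k : ℕ) :
    (Finset.univ.filter (fun Q : Fin k → A => ∀ i, Q i ∈ X)).card = X.card ^ k := by
  have : Finset.univ.filter (fun Q : Fin k → A => ∀ i, Q i ∈ X) =
      Fintype.piFinset (fun _ : Fin k => X) := by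
    ext Q; simp
  rw [this, Fintype.card_piFinset]; simp

theorem card_tuples_at {A : Type} [Fintype A] (X : Finset A) (P : A → Prop) (k : ℕ) (l : Fin k) :
    (Finset.univ.filter (fun w : Fin k → A => (∀ j, w j ∈ X) ∧ P (w l))).card =
      (X.filter P).card * X.card ^ (k - 1) := by
  have e : Finset.univ.filter (fun w : Fin k → A => (∀ j, w j ∈ X) ∧ P (w l)) =
      Fintype.piFinset (fun j : Fin k => if j = l then X.filter P else X) := by
    ext w
    simp only [Finset.mem_filter, Finset.mem_univ, true_and, Fintype.mem_piFinset]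
    constructor
    · rintro ⟨h1, h2⟩ j
      by_cases hj : j = l
      · subst hj; simp [h1, h2]
      · simp [hj, h1]
    · intro h
      refine ⟨fun j => ?_, ?_⟩
      · have := h j
        by_cases hj : j = l
        · rw [if_pos hj] at this
          exact (Finset.mem_filter.1 this).1
        · rw [if_neg hj] at this
          exact this
      · have := h l
        rw [if_pos rfl] at this
        exact (Finset.mem_filter.1 this).2
  rw [e, Fintype.card_piFinset]
  have e2 : ∀ j : Fin k, (if j = l then X.filter P else X).card =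
      if j = l then (X.filter P).card else X.card := by
    intro j; split_ifs <;> rfl
  rw [Finset.prod_congr rfl (fun j _ => e2 j), Finset.prod_ite]
  have e3 : (Finset.univ.filter (fun j : Fin k => j = l)) = {l} := by ext j; simp
  have e4 : (Finset.univ.filter (fun j : Fin k => ¬ j = l)) = Finset.univ.erase l := by
    ext j; simp
  rw [e3, e4]
  simp

theorem sum4 {W M Y Q : Type} [Fintype W] [Fintype M] [Fintype Y] [Fintype Q]
    (f : W → M → Y → Q → ℕ) :
    ∑ w, ∑ l, ∑ y, ∑ x, f w l y x = ∑ x, ∑ y, ∑ l, ∑ w, f w l y x := by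
  have h1 : ∀ w, ∑ l, ∑ y, ∑ x, f w l y x = ∑ x, ∑ y, ∑ l, f w l y x := by
    intro w
    have h2 : ∀ l, ∑ y, ∑ x, f w l y x = ∑ x, ∑ y, f w l y x := fun l => Finset.sum_comm
    rw [Finset.sum_congr rfl (fun l _ => h2 l), Finset.sum_comm]
    exact Finset.sum_congr rfl (fun x _ => Finset.sum_comm)
  rw [Finset.sum_congr rfl (fun w _ => h1 w), Finset.sum_comm]
  refine Finset.sum_congr rfl (fun x _ => ?_)
  rw [Finset.sum_comm]
  exact Finset.sum_congr rfl (fun y _ => Finset.sum_comm)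

/-- interchange of summation -/
theorem swap {A B : Type} [Fintype A] [Fintype B] (r : A → B → Prop) (L q : ℕ) :
    ∑ w : Fin q → A, ∑ l : Fin q, ∑ y ∈ Finset.univ.filter (fun y : B => r (w l) y),
      (Finset.univ.filter (fun Q : Fin (q + 1) → A => (∀ i, Q i ∈ (Ft r L w).filter
        (fun u => r u y)) ∧ Nice r L Q)).card =
    q * ∑ Q ∈ Finset.univ.filter (fun Q : Fin (q + 1) → A => Nice r L Q),
      ∑ y ∈ Finset.univ.filter (fun y : B => ∀ i, r (Q i) y),
        ((Ft r L Q).filter (fun u => r u y)).card * (Ft r L Q).card ^ (q - 1) := by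
  have h1 : ∑ w : Fin q → A, ∑ l : Fin q, ∑ y ∈ Finset.univ.filter (fun y : B => r (w l) y),
      (Finset.univ.filter (fun Q : Fin (q + 1) → A => (∀ i, Q i ∈ (Ft r L w).filter
        (fun u => r u y)) ∧ Nice r L Q)).card =
      ∑ w : Fin q → A, ∑ l : Fin q, ∑ y : B, ∑ Q : Fin (q + 1) → A,
        if (r (w l) y ∧ (∀ i, Q i ∈ (Ft r L w).filter (fun u => r u y)) ∧ Nice r L Q) then 1
        else 0 := by
    refine Finset.sum_congr rfl (fun w _ => Finset.sum_congr rfl (fun l _ => ?_))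
    rw [Finset.sum_filter]
    refine Finset.sum_congr rfl (fun y _ => ?_)
    rw [Finset.card_filter]
    by_cases hy : r (w l) y
    · simp [hy]
    · simp [hy]
  rw [h1, sum4, Finset.mul_sum, Finset.sum_filter]
  refine Finset.sum_congr rfl (fun Q _ => ?_)
  by_cases hQ : Nice r L Q
  · rw [if_pos hQ, Finset.mul_sum, Finset.sum_filter]
    refine Finset.sum_congr rfl (fun y _ => ?_)
    by_cases hy : ∀ i, r (Q i) y
    · rw [if_pos hy]
      have h2 : ∀ l : Fin q, (∑ w : Fin q → A,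
          if (r (w l) y ∧ (∀ i, Q i ∈ (Ft r L w).filter (fun u => r u y)) ∧ Nice r L Q) then 1
            else 0) = ((Ft r L Q).filter (fun u => r u y)).card * (Ft r L Q).card ^ (q - 1) := by
        intro l
        rw [← card_tuples_at (Ft r L Q) (fun u => r u y) q l, Finset.card_filter]
        refine Finset.sum_congr rfl (fun w _ => ?_)
        congr 1
        apply propext
        constructor
        · rintro ⟨a, b, -⟩
          exact ⟨(Ft_swap r L Q w).1 (fun i => (Finset.mem_filter.1 (b i)).1), a⟩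
        · rintro ⟨a, b⟩
          exact ⟨b, fun i => Finset.mem_filter.2 ⟨(Ft_swap r L Q w).2 a i, hy i⟩, hQ⟩
      rw [Finset.sum_congr rfl (fun l _ => h2 l)]
      simp
    · rw [if_neg hy]
      refine Finset.sum_eq_zero (fun l _ => Finset.sum_eq_zero (fun w _ => ?_))
      rw [if_neg]
      rintro ⟨a, b, -⟩
      exact hy (fun i => (Finset.mem_filter.1 (b i)).2)
  · rw [if_neg hQ]
    refine Finset.sum_eq_zero (fun y _ => Finset.sum_eq_zero (fun l _ =>
      Finset.sum_eq_zero (fun w _ => ?_)))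
    rw [if_neg]
    rintro ⟨a, b, c⟩
    exact hQ c

/-- tuples inside a large part of Ft w -/
theorem part_c {A B : Type} [Fintype A] [Fintype B] (r : A → B → Prop) (L q N0b N' : ℕ)
    (δ : ℝ) (hδ : 0 < δ)
    (hNb : ∀ X : Finset A, N0b ≤ X.card →
      ((Finset.univ.filter (fun Q : Fin (q + 1) → A => (∀ i, Q i ∈ X) ∧ ¬ Nice r L Q)).card : ℝ)
        ≤ 1 / 2 * (X.card : ℝ) ^ (q + 1))
    (hN' : (N0b : ℝ) ≤ δ * N') (w : Fin q → A) (hw : N' ≤ (Ft r L w).card) (l : Fin q) (y : B)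
    (hy : r (w l) y) (h : δ * ((Ft r L w).card : ℝ) < (((Ft r L w).filter (fun u => r u y)).card : ℝ)) :
    ((Ft r L w).card : ℝ) ^ (q + 1) ≤ 2 * (δ⁻¹) ^ (q + 1) *
      ((∑ l : Fin q, ∑ y ∈ Finset.univ.filter (fun y : B => r (w l) y),
      (Finset.univ.filter (fun Q : Fin (q + 1) → A => (∀ i, Q i ∈ (Ft r L w).filter
        (fun u => r u y)) ∧ Nice r L Q)).card : ℕ) : ℝ) := by
  set X := (Ft r L w).filter (fun u => r u y) with hX
  have hXN : N0b ≤ X.card := by
    have : (N' : ℝ) ≤ ((Ft r L w).card : ℝ) := by exact_mod_cast hw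
    have h2 : (N0b : ℝ) ≤ (X.card : ℝ) := by
      calc (N0b : ℝ) ≤ δ * N' := hN'
        _ ≤ δ * ((Ft r L w).card : ℝ) := by gcongr
        _ ≤ _ := h.le
    exact_mod_cast h2
  have h1 := hNb X hXN
  have h2 : ((Finset.univ.filter (fun Q : Fin (q + 1) → A => (∀ i, Q i ∈ X) ∧ Nice r L Q)).card +
      (Finset.univ.filter (fun Q : Fin (q + 1) → A => (∀ i, Q i ∈ X) ∧ ¬ Nice r L Q)).card) =
      X.card ^ (q + 1) := by
    rw [← card_tuples X (q + 1), ← Finset.filter_filter, ← Finset.filter_filter,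
      Finset.card_filter_add_card_filter_not]
  have h3 : (X.card : ℝ) ^ (q + 1) ≤ 2 *
      ((Finset.univ.filter (fun Q : Fin (q + 1) → A => (∀ i, Q i ∈ X) ∧ Nice r L Q)).card : ℝ) := by
    have : (((Finset.univ.filter (fun Q : Fin (q + 1) → A => (∀ i, Q i ∈ X) ∧ Nice r L Q)).card +
      (Finset.univ.filter (fun Q : Fin (q + 1) → A => (∀ i, Q i ∈ X) ∧ ¬ Nice r L Q)).card : ℕ) : ℝ) =
      (X.card : ℝ) ^ (q + 1) := by rw [h2]; push_cast; ring
    push_cast at this
    linarith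
  have h4 : ((Finset.univ.filter (fun Q : Fin (q + 1) → A => (∀ i, Q i ∈ X) ∧ Nice r L Q)).card) ≤
      ∑ l : Fin q, ∑ y ∈ Finset.univ.filter (fun y : B => r (w l) y),
      (Finset.univ.filter (fun Q : Fin (q + 1) → A => (∀ i, Q i ∈ (Ft r L w).filter
        (fun u => r u y)) ∧ Nice r L Q)).card := by
    calc _ ≤ ∑ y ∈ Finset.univ.filter (fun y : B => r (w l) y),
      (Finset.univ.filter (fun Q : Fin (q + 1) → A => (∀ i, Q i ∈ (Ft r L w).filter
        (fun u => r u y)) ∧ Nice r L Q)).card := by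
          refine Finset.single_le_sum (f := fun y => (Finset.univ.filter (fun Q : Fin (q + 1) → A =>
            (∀ i, Q i ∈ (Ft r L w).filter (fun u => r u y)) ∧ Nice r L Q)).card)
            (fun _ _ => Nat.zero_le _) (Finset.mem_filter.2 ⟨Finset.mem_univ y, hy⟩)
      _ ≤ _ := by
          refine Finset.single_le_sum (f := fun l => ∑ y ∈ Finset.univ.filter (fun y : B => r (w l) y),
            (Finset.univ.filter (fun Q : Fin (q + 1) → A => (∀ i, Q i ∈ (Ft r L w).filter
            (fun u => r u y)) ∧ Nice r L Q)).card)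
            (fun _ _ => Nat.zero_le _) (Finset.mem_univ l)
  have h5 : ((Ft r L w).card : ℝ) ≤ δ⁻¹ * (X.card : ℝ) := by
    rw [inv_mul_eq_div, le_div_iff₀ hδ]
    linarith [h.le, mul_comm δ ((Ft r L w).card : ℝ)]
  calc ((Ft r L w).card : ℝ) ^ (q + 1) ≤ (δ⁻¹ * (X.card : ℝ)) ^ (q + 1) := by
        gcongr
    _ = (δ⁻¹) ^ (q + 1) * (X.card : ℝ) ^ (q + 1) := by rw [mul_pow]
    _ ≤ (δ⁻¹) ^ (q + 1) * (2 *
      ((Finset.univ.filter (fun Q : Fin (q + 1) → A => (∀ i, Q i ∈ X) ∧ Nice r L Q)).card : ℝ)) := by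
        gcongr
    _ ≤ (δ⁻¹) ^ (q + 1) * (2 * ((∑ l : Fin q, ∑ y ∈ Finset.univ.filter (fun y : B => r (w l) y),
      (Finset.univ.filter (fun Q : Fin (q + 1) → A => (∀ i, Q i ∈ (Ft r L w).filter
        (fun u => r u y)) ∧ Nice r L Q)).card : ℕ) : ℝ)) := by
        have : ((Finset.univ.filter (fun Q : Fin (q + 1) → A =>
          (∀ i, Q i ∈ X) ∧ Nice r L Q)).card : ℝ) ≤ ((∑ l : Fin q,
          ∑ y ∈ Finset.univ.filter (fun y : B => r (w l) y),
            (Finset.univ.filter (fun Q : Fin (q + 1) → A => (∀ i, Q i ∈ (Ft r L w).filter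
            (fun u => r u y)) ∧ Nice r L Q)).card : ℕ) : ℝ) := by exact_mod_cast h4
        gcongr
    _ = _ := by ring

/-- tuples which are not nice -/
theorem part_a {A B : Type} [Fintype A] [Fintype B] (r : A → B → Prop) (L q N0a : ℕ)
    (R : Finset (Fin (q + 1) → A)) (hR : ∀ Q ∈ R, N0a ≤ (Ft r L Q).card)
    (hNa : ∀ X : Finset A, N0a ≤ X.card →
      ((Finset.univ.filter (fun w : Fin q → A => (∀ i, w i ∈ X) ∧ ¬ Nice r L w)).card : ℝ)
        ≤ 1 / 8 * (X.card : ℝ) ^ q) :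
    (∑ w ∈ Finset.univ.filter (fun w : Fin q → A => ¬ Nice r L w),
      ((R.filter (fun Q => ∀ i, Q i ∈ Ft r L w)).card : ℝ)) ≤
      1 / 8 * ((∑ Q ∈ R, (Ft r L Q).card ^ q : ℕ) : ℝ) := by
  have h1 : ∑ w ∈ Finset.univ.filter (fun w : Fin q → A => ¬ Nice r L w),
      (R.filter (fun Q => ∀ i, Q i ∈ Ft r L w)).card =
      ∑ Q ∈ R, (Finset.univ.filter (fun w : Fin q → A => (∀ i, w i ∈ Ft r L Q) ∧
        ¬ Nice r L w)).card := by
    simp_rw [Finset.card_filter]
    rw [Finset.sum_filter]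
    have h2 : ∀ w : Fin q → A, (if ¬ Nice r L w then ∑ Q ∈ R,
        (if (∀ i, Q i ∈ Ft r L w) then 1 else 0) else 0) =
        ∑ Q ∈ R, (if (∀ i, w i ∈ Ft r L Q) ∧ ¬ Nice r L w then 1 else 0) := by
      intro w
      by_cases hw : Nice r L w
      · simp [hw]
      · rw [if_pos hw]
        refine Finset.sum_congr rfl (fun Q _ => ?_)
        congr 1
        apply propext
        constructor
        · intro h
          exact ⟨(Ft_swap r L Q w).1 h, hw⟩
        · intro h
          exact (Ft_swap r L Q w).2 h.1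
    rw [Finset.sum_congr rfl (fun w _ => h2 w), Finset.sum_comm]
  have h3 : (∑ w ∈ Finset.univ.filter (fun w : Fin q → A => ¬ Nice r L w),
      ((R.filter (fun Q => ∀ i, Q i ∈ Ft r L w)).card : ℝ)) =
      ∑ Q ∈ R, ((Finset.univ.filter (fun w : Fin q → A => (∀ i, w i ∈ Ft r L Q) ∧
        ¬ Nice r L w)).card : ℝ) := by
    exact_mod_cast h1
  rw [h3]
  push_cast
  rw [Finset.mul_sum]
  exact Finset.sum_le_sum (fun Q hQ => hNa _ (hR Q hQ))

theorem main : S_NB → S_DC → S_TB → S_W2 := by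
  intro hNB hDC hTB s q t K M2 η Λ hq hK hη hΛ
  obtain ⟨N0a, hNa⟩ := hNB s q t q (1 / 8) (by norm_num)
  refine ⟨N0a, fun M1 hM1 δ N2 hδ => ?_⟩
  obtain ⟨N0b, hNb⟩ := hNB s q t (q + 1) (1 / 2) (by norm_num)
  obtain ⟨N3, hN3⟩ := exists_nat_ge ((N0b : ℝ) / δ)
  obtain ⟨N', hN'2, hN'3⟩ : ∃ N' : ℕ, N2 ≤ N' ∧ N3 ≤ N' := ⟨max N2 N3, le_max_left _ _, le_max_right _ _⟩
  have hN'b : (N0b : ℝ) ≤ δ * N' := by
    have h1 : (N0b : ℝ) / δ ≤ N' := hN3.trans (by exact_mod_cast hN'3)
    rw [div_le_iff₀ hδ] at h1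
    linarith
  obtain ⟨L, hL⟩ : ∃ L : ℕ, L = Pool.Agent.W979.TE3.LT s q t := ⟨_, rfl⟩
  have hLpos : 0 < L := by rw [hL, Pool.Agent.W979.TE3.LT]; omega
  obtain ⟨lam, hlam⟩ : ∃ lam : ℝ, lam = 32 * (δ⁻¹) ^ (q + 1) * q * L * K * Λ := ⟨_, rfl⟩
  have hqpos : (0 : ℝ) < q := by exact_mod_cast (by omega : 0 < q)
  have hLposR : (0 : ℝ) < L := by exact_mod_cast hLpos
  have hKposR : (0 : ℝ) < K := by exact_mod_cast hK
  have hδi : 0 < δ⁻¹ := inv_pos.2 hδ
  have hlampos : 0 < lam := by rw [hlam]; positivity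
  obtain ⟨c2, hc2⟩ : ∃ c2 : ℝ, c2 = 2 * (δ⁻¹) ^ (q + 1) * q * (K : ℝ) ^ (q + 3) * lam ^ (q - 1) :=
    ⟨_, rfl⟩
  have hc2pos : 0 < c2 := by rw [hc2]; positivity
  obtain ⟨C, hC1, hC2, hC3⟩ : ∃ C : ℝ, 16 * Λ * c2 / η ≤ C ∧ 8 * Λ * (N' : ℝ) ^ (q + 1) / η ≤ C ∧
      1 ≤ C := ⟨max (16 * Λ * c2 / η) (max (8 * Λ * (N' : ℝ) ^ (q + 1) / η) 1), le_max_left _ _,
        (le_max_left _ _).trans (le_max_right _ _), (le_max_right _ _).trans (le_max_right _ _)⟩
  refine ⟨C, ?_⟩
  intro A B _ _ _ r D hReg hCD hCA hSB hAW hRW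
  rw [← hL] at hAW hRW ⊢
  by_contra hno
  have hno' : ∀ w : Fin q → A, ¬ GoodW r L M2 N2 q (1 / (2 * Λ)) δ w := fun w hw => hno ⟨w, hw⟩
  have hDpos : (0 : ℝ) < D := by linarith
  have hDnat : 0 < D := by exact_mod_cast hDpos
  have hApos : (0 : ℝ) < Fintype.card A := by exact_mod_cast Fintype.card_pos
  obtain ⟨S, hS⟩ : ∃ S : ℝ, S = (Fintype.card A : ℝ) * (D : ℝ) ^ (2 * q + 2) := ⟨_, rfl⟩
  have hSpos : 0 < S := by rw [hS]; positivity
  obtain ⟨R, hR⟩ : ∃ R : Finset (Fin (q + 1) → A), R = Finset.univ.filter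
    (fun Q : Fin (q + 1) → A => Nice r L Q ∧ M1 ≤ (Ft r L Q).card ∧ Rich r L M2 Q) := ⟨_, rfl⟩
  obtain ⟨RWn, hRWn⟩ : ∃ x : ℝ, x = (RW r L M1 M2 q : ℝ) := ⟨_, rfl⟩
  obtain ⟨N, hN⟩ : ∃ x : ℝ, x = (AW r L q : ℝ) := ⟨_, rfl⟩
  rw [← hRWn, ← hN] at hRW
  rw [← hN, mul_assoc, ← hS] at hAW
  have hRWpos : 0 < RWn := by
    have : 0 < Λ * RWn := lt_of_lt_of_le (by positivity) (hAW.trans hRW)
    exact (pos_iff_pos_of_mul_pos this).1 hΛ
  -- lower bound for RW in terms of S
  have hRWS : η * S / Λ ≤ RWn := by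
    rw [div_le_iff₀ hΛ]
    linarith [mul_comm Λ RWn]
  -- double counting
  have hRWsum : RWn = ∑ w : Fin q → A, ((R.filter (fun Q => ∀ i, Q i ∈ Ft r L w)).card : ℝ) := by
    rw [hRWn, RW, ← hR, hDC A B r L (q + 1) q R]
    push_cast
    rfl
  have hRWQ : RWn = ((∑ Q ∈ R, (Ft r L Q).card ^ q : ℕ) : ℝ) := by
    rw [hRWn, RW, ← hR]
  have hNsum : N = ∑ w : Fin q → A, ((Ft r L w).card : ℝ) ^ (q + 1) := by
    rw [hN, AW, hDC A B r L (q + 1) q Finset.univ]
    push_cast
    refine Finset.sum_congr rfl (fun w _ => ?_)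
    rw [card_tuples]
    push_cast
    rfl
  have hfle : ∀ w : Fin q → A, ((R.filter (fun Q => ∀ i, Q i ∈ Ft r L w)).card : ℝ) ≤
      ((Ft r L w).card : ℝ) ^ (q + 1) := by
    intro w
    have : (R.filter (fun Q => ∀ i, Q i ∈ Ft r L w)).card ≤ (Ft r L w).card ^ (q + 1) := by
      rw [← card_tuples]
      refine Finset.card_le_card (fun Q hQ => ?_)
      rw [Finset.mem_filter] at hQ
      simp only [Finset.mem_filter, Finset.mem_univ, true_and]
      exact hQ.2
    exact_mod_cast this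
  -- (a)
  have ha := part_a r L q N0a R (fun Q hQ => by
    rw [hR, Finset.mem_filter] at hQ
    exact hM1.trans hQ.2.2.1) (fun X hX => by
      have := hNa A B r X hSB hX
      rw [← hL] at this
      exact this)
  rw [← hRWQ] at ha
  -- (b)
  have hb : ∑ w ∈ Finset.univ.filter (fun w : Fin q → A => (Ft r L w).card < N'),
      ((Ft r L w).card : ℝ) ^ (q + 1) ≤ 1 / 8 * RWn := by
    have h1 : ∑ w ∈ Finset.univ.filter (fun w : Fin q → A => (Ft r L w).card < N'),
        ((Ft r L w).card : ℝ) ^ (q + 1) ≤ ∑ w : Fin q → A, (N' : ℝ) ^ (q + 1) := by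
      calc _ ≤ ∑ w ∈ Finset.univ.filter (fun w : Fin q → A => (Ft r L w).card < N'),
            (N' : ℝ) ^ (q + 1) := by
            refine Finset.sum_le_sum (fun w hw => ?_)
            have : ((Ft r L w).card : ℝ) ≤ N' := by
              exact_mod_cast (Finset.mem_filter.1 hw).2.le
            gcongr
        _ ≤ _ := Finset.sum_le_sum_of_subset_of_nonneg (Finset.subset_univ _)
            (fun _ _ _ => by positivity)
    have h2 : ∑ w : Fin q → A, (N' : ℝ) ^ (q + 1) = (Fintype.card A : ℝ) ^ q * (N' : ℝ) ^ (q + 1) := by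
      rw [Finset.sum_const, nsmul_eq_mul]
      congr 1
      rw [Finset.card_univ]
      simp
    have h3 : C * (Fintype.card A : ℝ) ^ q ≤ S := by
      have : (Fintype.card A : ℝ) ^ q = (Fintype.card A : ℝ) ^ (q - 1) * (Fintype.card A : ℝ) := by
        rw [← pow_succ]; congr 1; omega
      rw [this, hS]
      calc C * ((Fintype.card A : ℝ) ^ (q - 1) * (Fintype.card A : ℝ)) =
            (C * (Fintype.card A : ℝ) ^ (q - 1)) * (Fintype.card A : ℝ) := by ring
        _ ≤ (D : ℝ) ^ (2 * q + 2) * (Fintype.card A : ℝ) := by gcongr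
        _ = _ := by ring
    rw [h2] at h1
    refine h1.trans ?_
    have h4 : 8 * Λ * (N' : ℝ) ^ (q + 1) ≤ C * η := by
      rwa [div_le_iff₀ hη] at hC2
    have h5 : 8 * Λ * (N' : ℝ) ^ (q + 1) * (Fintype.card A : ℝ) ^ q ≤ η * S := by
      calc _ ≤ C * η * (Fintype.card A : ℝ) ^ q := by gcongr
        _ = η * (C * (Fintype.card A : ℝ) ^ q) := by ring
        _ ≤ _ := by gcongr
    have h6 : η * S ≤ Λ * RWn := by
      rw [div_le_iff₀ hΛ] at hRWS
      linarith [mul_comm Λ RWn]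
    have h7 : Λ * (8 * ((Fintype.card A : ℝ) ^ q * (N' : ℝ) ^ (q + 1))) ≤ Λ * RWn := by
      calc _ = 8 * Λ * (N' : ℝ) ^ (q + 1) * (Fintype.card A : ℝ) ^ q := by ring
        _ ≤ _ := h5.trans h6
    have h8 := le_of_mul_le_mul_left h7 hΛ
    linarith
  -- (c)
  have hc : ∑ w ∈ Finset.univ.filter (fun w : Fin q → A => N' ≤ (Ft r L w).card ∧
      ∃ l y, r (w l) y ∧ δ * ((Ft r L w).card : ℝ) <
        (((Ft r L w).filter (fun u => r u y)).card : ℝ)),
      ((Ft r L w).card : ℝ) ^ (q + 1) ≤ 1 / 8 * RWn := by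
    have h1 : ∑ w ∈ Finset.univ.filter (fun w : Fin q → A => N' ≤ (Ft r L w).card ∧
        ∃ l y, r (w l) y ∧ δ * ((Ft r L w).card : ℝ) <
          (((Ft r L w).filter (fun u => r u y)).card : ℝ)),
        ((Ft r L w).card : ℝ) ^ (q + 1) ≤ 2 * (δ⁻¹) ^ (q + 1) * ((∑ w : Fin q → A, ∑ l : Fin q,
          ∑ y ∈ Finset.univ.filter (fun y : B => r (w l) y),
          (Finset.univ.filter (fun Q : Fin (q + 1) → A => (∀ i, Q i ∈ (Ft r L w).filter
          (fun u => r u y)) ∧ Nice r L Q)).card : ℕ) : ℝ) := by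
      rw [Nat.cast_sum, Finset.mul_sum]
      refine (Finset.sum_le_sum (fun w hw => ?_)).trans
        (Finset.sum_le_sum_of_subset_of_nonneg (Finset.subset_univ _)
            (fun _ _ _ => by positivity))
      obtain ⟨hw1, l, y, hy, h⟩ := (Finset.mem_filter.1 hw).2
      exact part_c r L q N0b N' δ hδ (fun X hX => by
        have := hNb A B r X hSB hX
        rw [← hL] at this
        exact this) hN'b w hw1 l y hy h
    rw [swap] at h1
    have h2 := hTB A B r L (q + 1) (q - 1) K D lam (by omega) hlampos hReg hDnat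
    have h3 : ((∑ w : Fin (q + 1) → A, (Ft r L w).card ^ (q - 1 + 1) : ℕ) : ℝ) = N := by
      rw [hN, AW, Nat.sub_add_cancel (by omega : 1 ≤ q)]
    rw [h3] at h2
    obtain ⟨T, hT⟩ : ∃ T : ℝ, T = ((∑ w ∈ Finset.univ.filter (fun w : Fin (q + 1) → A => Nice r L w),
      ∑ y ∈ Finset.univ.filter (fun y : B => ∀ i, r (w i) y),
        ((Ft r L w).filter (fun u => r u y)).card * (Ft r L w).card ^ (q - 1) : ℕ) : ℝ) := ⟨_, rfl⟩
    rw [← hT] at h2
    rw [Nat.cast_mul, ← hT] at h1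
    refine h1.trans ?_
    have hB : (Fintype.card B : ℝ) ≤ K * (Fintype.card A : ℝ) := by
      have h4 : Fintype.card B * D ≤ Fintype.card A * (K * D) := by
        calc Fintype.card B * D = ∑ b : B, D := by simp
          _ ≤ ∑ b : B, deg2 r b := Finset.sum_le_sum (fun b _ => hReg.lb b)
          _ = ∑ a : A, deg1 r a := by
              simp only [deg2, deg1, Finset.card_filter]
              exact Finset.sum_comm
          _ ≤ ∑ a : A, K * D := Finset.sum_le_sum (fun a _ => hReg.ua a)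
          _ = _ := by simp
      have h5 : (Fintype.card B * D : ℝ) ≤ (K * (Fintype.card A : ℝ)) * D := by
        have : (Fintype.card B * D : ℝ) ≤ Fintype.card A * (K * D) := by exact_mod_cast h4
        linarith
      exact le_of_mul_le_mul_right h5 hDpos
    -- first part
    have h6 : 2 * (δ⁻¹) ^ (q + 1) * (q * ((L : ℝ) * K / lam * N)) ≤ 1 / 16 * RWn := by
      have h7 : 2 * (δ⁻¹) ^ (q + 1) * (q * ((L : ℝ) * K / lam * N)) ≤
          2 * (δ⁻¹) ^ (q + 1) * (q * ((L : ℝ) * K / lam * (Λ * RWn))) := by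
        gcongr
      refine h7.trans (le_of_eq ?_)
      rw [hlam]
      field_simp
      ring
    have h8 : 2 * (δ⁻¹) ^ (q + 1) * (q * ((Fintype.card B : ℝ) * ((K : ℝ) * D) ^ (q + 1 + 1) *
        (lam * D) ^ (q - 1))) ≤ 1 / 16 * RWn := by
      have h9 : 2 * (δ⁻¹) ^ (q + 1) * (q * ((Fintype.card B : ℝ) * ((K : ℝ) * D) ^ (q + 1 + 1) *
        (lam * D) ^ (q - 1))) ≤ 2 * (δ⁻¹) ^ (q + 1) * (q * ((K * (Fintype.card A : ℝ)) *
          ((K : ℝ) * D) ^ (q + 1 + 1) * (lam * D) ^ (q - 1))) := by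
        gcongr
      have h10 : (2 * (δ⁻¹) ^ (q + 1) * (q * ((K * (Fintype.card A : ℝ)) *
          ((K : ℝ) * D) ^ (q + 1 + 1) * (lam * D) ^ (q - 1)))) * D = c2 * S := by
        obtain ⟨p, rfl⟩ : ∃ p, q = p + 1 := ⟨q - 1, by omega⟩
        rw [hc2, hS, Nat.add_sub_cancel, mul_pow, mul_pow]
        ring
      have h11 : c2 * S ≤ (1 / 16 * RWn) * D := by
        have h12 : 16 * Λ * c2 ≤ D * η := by
          rw [div_le_iff₀ hη] at hC1
          refine hC1.trans ?_
          gcongr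
        have h13 : η * S ≤ Λ * RWn := by
          rw [div_le_iff₀ hΛ] at hRWS
          linarith [mul_comm Λ RWn]
        have h14 : Λ * (16 * (c2 * S)) ≤ Λ * (RWn * D) := by
          calc Λ * (16 * (c2 * S)) = (16 * Λ * c2) * S := by ring
            _ ≤ (D * η) * S := by gcongr
            _ = D * (η * S) := by ring
            _ ≤ D * (Λ * RWn) := by gcongr
            _ = _ := by ring
        have h15 := le_of_mul_le_mul_left h14 hΛ
        linarith
      refine h9.trans ?_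
      rw [← h10] at h11
      exact le_of_mul_le_mul_right h11 hDpos
    calc 2 * (δ⁻¹) ^ (q + 1) * (q * T) ≤ 2 * (δ⁻¹) ^ (q + 1) * (q * ((L : ℝ) * K / lam * N +
          (Fintype.card B : ℝ) * ((K : ℝ) * D) ^ (q + 1 + 1) * (lam * D) ^ (q - 1))) := by
          gcongr
      _ = 2 * (δ⁻¹) ^ (q + 1) * (q * ((L : ℝ) * K / lam * N)) +
          2 * (δ⁻¹) ^ (q + 1) * (q * ((Fintype.card B : ℝ) * ((K : ℝ) * D) ^ (q + 1 + 1) *
        (lam * D) ^ (q - 1))) := by ring
      _ ≤ 1 / 16 * RWn + 1 / 16 * RWn := add_le_add h6 h8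
      _ = _ := by ring
  -- conclusion
  have hkey : RWn ≤ 1 / 8 * RWn + 1 / 8 * RWn + 1 / 8 * RWn + 1 / (2 * Λ) * N := by
    have h1 : RWn ≤ ∑ w ∈ Finset.univ.filter (fun w : Fin q → A => ¬ Nice r L w),
        ((R.filter (fun Q => ∀ i, Q i ∈ Ft r L w)).card : ℝ) +
        ∑ w ∈ Finset.univ.filter (fun w : Fin q → A => (Ft r L w).card < N'),
          ((Ft r L w).card : ℝ) ^ (q + 1) +
        ∑ w ∈ Finset.univ.filter (fun w : Fin q → A => N' ≤ (Ft r L w).card ∧
          ∃ l y, r (w l) y ∧ δ * ((Ft r L w).card : ℝ) <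
          (((Ft r L w).filter (fun u => r u y)).card : ℝ)), ((Ft r L w).card : ℝ) ^ (q + 1) +
        1 / (2 * Λ) * N := by
      rw [hRWsum, hNsum, Finset.mul_sum, Finset.sum_filter, Finset.sum_filter, Finset.sum_filter,
        ← Finset.sum_add_distrib, ← Finset.sum_add_distrib, ← Finset.sum_add_distrib]
      refine Finset.sum_le_sum (fun w _ => ?_)
      have p1 : (0 : ℝ) ≤ if ¬ Nice r L w then
          ((R.filter (fun Q => ∀ i, Q i ∈ Ft r L w)).card : ℝ) else 0 := by
        split_ifs <;> positivity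
      have p2 : (0 : ℝ) ≤ if (Ft r L w).card < N' then ((Ft r L w).card : ℝ) ^ (q + 1) else 0 := by
        split_ifs <;> positivity
      have p3 : (0 : ℝ) ≤ if N' ≤ (Ft r L w).card ∧
          ∃ l y, r (w l) y ∧ δ * ((Ft r L w).card : ℝ) <
          (((Ft r L w).filter (fun u => r u y)).card : ℝ) then ((Ft r L w).card : ℝ) ^ (q + 1)
          else 0 := by
        split_ifs <;> positivity
      have p4 : (0 : ℝ) ≤ 1 / (2 * Λ) * ((Ft r L w).card : ℝ) ^ (q + 1) := by positivity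
      by_cases w1 : Nice r L w
      · by_cases w2 : (Ft r L w).card < N'
        · rw [if_pos w2] at p2 ⊢
          have := hfle w
          linarith
        · rw [not_lt] at w2
          by_cases w3 : ∃ l y, r (w l) y ∧ δ * ((Ft r L w).card : ℝ) <
            (((Ft r L w).filter (fun u => r u y)).card : ℝ)
          · have w4 : N' ≤ (Ft r L w).card ∧ ∃ l y, r (w l) y ∧ δ * ((Ft r L w).card : ℝ) <
              (((Ft r L w).filter (fun u => r u y)).card : ℝ) := ⟨w2, w3⟩
            rw [if_pos w4] at p3 ⊢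
            have := hfle w
            linarith
          · have h2 := hno' w
            have h3 : ((R.filter (fun Q => ∀ i, Q i ∈ Ft r L w)).card : ℝ) ≤
                1 / (2 * Λ) * ((Ft r L w).card : ℝ) ^ (q + 1) := by
              by_contra hcon
              rw [not_le] at hcon
              refine h2 ⟨w1, hN'2.trans w2, ?_, ?_⟩
              · intro l y hy
                by_contra hh
                exact w3 ⟨l, y, hy, not_le.1 hh⟩
              · refine hcon.le.trans ?_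
                have : (R.filter (fun Q => ∀ i, Q i ∈ Ft r L w)).card ≤
                    (Finset.univ.filter (fun Q : Fin (q + 1) → A =>
                    (∀ i, Q i ∈ Ft r L w) ∧ Rich r L M2 Q)).card := by
                  refine Finset.card_le_card (fun Q hQ => ?_)
                  rw [Finset.mem_filter] at hQ
                  rw [hR, Finset.mem_filter] at hQ
                  exact Finset.mem_filter.2 ⟨Finset.mem_univ _, hQ.2, hQ.1.2.2.2⟩
                exact_mod_cast this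
            linarith
      · rw [if_pos w1] at p1 ⊢
        linarith
    linarith
  have hfin : 1 / (2 * Λ) * N ≤ 1 / 2 * RWn := by
    calc 1 / (2 * Λ) * N ≤ 1 / (2 * Λ) * (Λ * RWn) := by gcongr
      _ = _ := by field_simp
  linarith

end Pool.Agent.W916.TE3W2
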