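import Mathlib

set_option autoImplicit false

/-!
# Projective algebras of plane sets: definitions, terms, and a coding of sets of natural numbers
-/

namespace Pool.Agent.W916.PA

open Set

/-- The first axis. -/
def axisX : Set (ℝ × ℝ) := {p | p.2 = 0}

/-- The second axis. -/
def axisY : Set (ℝ × ℝ) := {p | p.1 = 0}

/-- The projection of a plane set to the first axis. -/
def proj1 (S : Set (ℝ × ℝ)) : Set (ℝ × ℝ) := {p | p.2 = 0 ∧ ∃ y, (p.1, y) ∈ S}

/-- The projection of a plane set to the second axis. -/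
def proj2 (S : Set (ℝ × ℝ)) : Set (ℝ × ℝ) := {p | p.1 = 0 ∧ ∃ x, (x, p.2) ∈ S}

/-- The direct product of a subset `A` of the first axis and a subset `B` of the second axis. -/
def dprod (A B : Set (ℝ × ℝ)) : Set (ℝ × ℝ) := {p | (p.1, (0 : ℝ)) ∈ A ∧ ((0 : ℝ), p.2) ∈ B}

/-- A projective algebra of plane sets. -/
structure IsProjectiveAlgebra (F : Set (Set (ℝ × ℝ))) : Prop where
  empty_mem : ∅ ∈ F
  union_mem : ∀ S ∈ F, ∀ T ∈ F, S ∪ T ∈ F
  inter_mem : ∀ S ∈ F, ∀ T ∈ F, S ∩ T ∈ F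
  compl_mem : ∀ S ∈ F, Sᶜ ∈ F
  proj1_mem : ∀ S ∈ F, proj1 S ∈ F
  proj2_mem : ∀ S ∈ F, proj2 S ∈ F
  dprod_mem : ∀ A ∈ F, ∀ B ∈ F, A ⊆ axisX → B ⊆ axisY → dprod A B ∈ F

/-- `f` is an isomorphism from the projective algebra `F` onto the projective algebra `G`: a
bijection preserving finite unions and intersections, complements, both projections and direct
products. -/
structure IsIso (F G : Set (Set (ℝ × ℝ))) (f : Set (ℝ × ℝ) → Set (ℝ × ℝ)) : Prop where
  bij : BijOn f F G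
  union : ∀ S ∈ F, ∀ T ∈ F, f (S ∪ T) = f S ∪ f T
  inter : ∀ S ∈ F, ∀ T ∈ F, f (S ∩ T) = f S ∩ f T
  compl : ∀ S ∈ F, f Sᶜ = (f S)ᶜ
  proj1 : ∀ S ∈ F, f (proj1 S) = PA.proj1 (f S)
  proj2 : ∀ S ∈ F, f (proj2 S) = PA.proj2 (f S)
  dprod : ∀ A ∈ F, ∀ B ∈ F, A ⊆ axisX → B ⊆ axisY → f (dprod A B) = PA.dprod (f A) (f B)

/-- Two projective algebras are isomorphic. -/
def Isomorphic (F G : Set (Set (ℝ × ℝ))) : Prop := ∃ f, IsIso F G f

/-- The projective algebra generated by the family `Γ` of plane sets. -/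
def generated (Γ : Set (Set (ℝ × ℝ))) : Set (Set (ℝ × ℝ)) :=
  ⋂₀ {F | IsProjectiveAlgebra F ∧ Γ ⊆ F}

theorem generated_isProjectiveAlgebra (Γ : Set (Set (ℝ × ℝ))) :
    IsProjectiveAlgebra (generated Γ) where
  empty_mem := fun _ h => h.1.empty_mem
  union_mem := fun _ hS _ hT F h => h.1.union_mem _ (hS F h) _ (hT F h)
  inter_mem := fun _ hS _ hT F h => h.1.inter_mem _ (hS F h) _ (hT F h)
  compl_mem := fun _ hS F h => h.1.compl_mem _ (hS F h)
  proj1_mem := fun _ hS F h => h.1.proj1_mem _ (hS F h)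
  proj2_mem := fun _ hS F h => h.1.proj2_mem _ (hS F h)
  dprod_mem := fun _ hS _ hT h1 h2 F h => h.1.dprod_mem _ (hS F h) _ (hT F h) h1 h2

theorem subset_generated (Γ : Set (Set (ℝ × ℝ))) : Γ ⊆ generated Γ :=
  fun _ hS _ h => h.2 hS

theorem generated_subset {Γ F : Set (Set (ℝ × ℝ))} (hF : IsProjectiveAlgebra F) (h : Γ ⊆ F) :
    generated Γ ⊆ F := fun _ hS => hS F ⟨hF, h⟩

/-! ### Basic facts -/

theorem dprod_inter_axes (A B : Set (ℝ × ℝ)) : dprod (A ∩ axisX) (B ∩ axisY) = dprod A B := by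
  ext p
  simp [dprod, axisX, axisY]

theorem proj1_univ : proj1 univ = axisX := by
  ext p
  simp [proj1, axisX]

theorem proj2_univ : proj2 univ = axisY := by
  ext p
  simp [proj2, axisY]

namespace IsProjectiveAlgebra

variable {F : Set (Set (ℝ × ℝ))}

theorem univ_mem (h : IsProjectiveAlgebra F) : univ ∈ F := by
  have := h.compl_mem _ h.empty_mem
  rwa [compl_empty] at this

theorem axisX_mem (h : IsProjectiveAlgebra F) : axisX ∈ F := by
  have := h.proj1_mem _ h.univ_mem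
  rwa [proj1_univ] at this

theorem axisY_mem (h : IsProjectiveAlgebra F) : axisY ∈ F := by
  have := h.proj2_mem _ h.univ_mem
  rwa [proj2_univ] at this

theorem dprod_mem' (h : IsProjectiveAlgebra F) {A B : Set (ℝ × ℝ)} (hA : A ∈ F) (hB : B ∈ F) :
    dprod A B ∈ F := by
  rw [← dprod_inter_axes]
  exact h.dprod_mem _ (h.inter_mem _ hA _ h.axisX_mem) _ (h.inter_mem _ hB _ h.axisY_mem)
    inter_subset_right inter_subset_right

end IsProjectiveAlgebra

namespace IsIso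

variable {F G : Set (Set (ℝ × ℝ))} {f : Set (ℝ × ℝ) → Set (ℝ × ℝ)}

theorem map_empty (h : IsIso F G f) (hF : IsProjectiveAlgebra F) : f ∅ = ∅ := by
  have h1 := h.inter ∅ hF.empty_mem univ hF.univ_mem
  have h2 := h.compl ∅ hF.empty_mem
  rw [compl_empty] at h2
  rw [empty_inter, h2, inter_compl_self] at h1
  exact h1

theorem map_univ (h : IsIso F G f) (hF : IsProjectiveAlgebra F) : f univ = univ := by
  have h2 := h.compl ∅ hF.empty_mem
  rwa [compl_empty, h.map_empty hF, compl_empty] at h2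

theorem map_axisX (h : IsIso F G f) (hF : IsProjectiveAlgebra F) : f axisX = axisX := by
  have := h.proj1 univ hF.univ_mem
  rwa [h.map_univ hF, proj1_univ] at this

theorem map_axisY (h : IsIso F G f) (hF : IsProjectiveAlgebra F) : f axisY = axisY := by
  have := h.proj2 univ hF.univ_mem
  rwa [h.map_univ hF, proj2_univ] at this

theorem map_dprod (h : IsIso F G f) (hF : IsProjectiveAlgebra F) {A B : Set (ℝ × ℝ)}
    (hA : A ∈ F) (hB : B ∈ F) : f (PA.dprod A B) = PA.dprod (f A) (f B) := by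
  rw [← dprod_inter_axes, h.dprod _ (hF.inter_mem _ hA _ hF.axisX_mem) _
    (hF.inter_mem _ hB _ hF.axisY_mem) inter_subset_right inter_subset_right,
    h.inter _ hA _ hF.axisX_mem, h.inter _ hB _ hF.axisY_mem, h.map_axisX hF, h.map_axisY hF,
    dprod_inter_axes]

theorem eq_empty_iff (h : IsIso F G f) (hF : IsProjectiveAlgebra F) {S : Set (ℝ × ℝ)}
    (hS : S ∈ F) : f S = ∅ ↔ S = ∅ := by
  constructor
  · intro h1
    exact h.bij.injOn hS hF.empty_mem (h1.trans (h.map_empty hF).symm)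
  · rintro rfl
    exact h.map_empty hF

theorem refl (F : Set (Set (ℝ × ℝ))) : IsIso F F id where
  bij := bijOn_id F
  union := fun _ _ _ _ => rfl
  inter := fun _ _ _ _ => rfl
  compl := fun _ _ => rfl
  proj1 := fun _ _ => rfl
  proj2 := fun _ _ => rfl
  dprod := fun _ _ _ _ _ _ => rfl

end IsIso

/-! ### Terms -/

/-- Terms in `k` variables. -/
inductive Tm (k : ℕ) : Type
  | var : Fin k → Tm k
  | bot : Tm k
  | union : Tm k → Tm k → Tm k
  | inter : Tm k → Tm k → Tm k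
  | compl : Tm k → Tm k
  | p1 : Tm k → Tm k
  | p2 : Tm k → Tm k
  | prod : Tm k → Tm k → Tm k
  deriving Encodable

/-- Evaluation of terms. -/
def ev {k : ℕ} (S : Fin k → Set (ℝ × ℝ)) : Tm k → Set (ℝ × ℝ)
  | .var i => S i
  | .bot => ∅
  | .union s t => ev S s ∪ ev S t
  | .inter s t => ev S s ∩ ev S t
  | .compl s => (ev S s)ᶜ
  | .p1 s => proj1 (ev S s)
  | .p2 s => proj2 (ev S s)
  | .prod s t => dprod (ev S s) (ev S t)

theorem range_ev_isProjectiveAlgebra {k : ℕ} (S : Fin k → Set (ℝ × ℝ)) :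
    IsProjectiveAlgebra (range (ev S)) where
  empty_mem := ⟨.bot, rfl⟩
  union_mem := by
    rintro _ ⟨s, rfl⟩ _ ⟨t, rfl⟩
    exact ⟨.union s t, rfl⟩
  inter_mem := by
    rintro _ ⟨s, rfl⟩ _ ⟨t, rfl⟩
    exact ⟨.inter s t, rfl⟩
  compl_mem := by
    rintro _ ⟨s, rfl⟩
    exact ⟨.compl s, rfl⟩
  proj1_mem := by
    rintro _ ⟨s, rfl⟩
    exact ⟨.p1 s, rfl⟩
  proj2_mem := by
    rintro _ ⟨s, rfl⟩
    exact ⟨.p2 s, rfl⟩
  dprod_mem := by
    rintro _ ⟨s, rfl⟩ _ ⟨t, rfl⟩ _ _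
    exact ⟨.prod s t, rfl⟩

theorem ev_mem {k : ℕ} {S : Fin k → Set (ℝ × ℝ)} {F : Set (Set (ℝ × ℝ))}
    (hF : IsProjectiveAlgebra F) (hS : ∀ i, S i ∈ F) : ∀ t, ev S t ∈ F
  | .var i => hS i
  | .bot => hF.empty_mem
  | .union s t => hF.union_mem _ (ev_mem hF hS s) _ (ev_mem hF hS t)
  | .inter s t => hF.inter_mem _ (ev_mem hF hS s) _ (ev_mem hF hS t)
  | .compl s => hF.compl_mem _ (ev_mem hF hS s)
  | .p1 s => hF.proj1_mem _ (ev_mem hF hS s)
  | .p2 s => hF.proj2_mem _ (ev_mem hF hS s)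
  | .prod s t => hF.dprod_mem' (ev_mem hF hS s) (ev_mem hF hS t)

theorem range_ev {k : ℕ} (S : Fin k → Set (ℝ × ℝ)) : range (ev S) = generated (range S) := by
  apply subset_antisymm
  · rintro _ ⟨t, rfl⟩
    exact ev_mem (generated_isProjectiveAlgebra _)
      (fun i => subset_generated _ (mem_range_self i)) t
  · apply generated_subset (range_ev_isProjectiveAlgebra S)
    rintro _ ⟨i, rfl⟩
    exact ⟨.var i, rfl⟩

theorem map_ev {k : ℕ} {S : Fin k → Set (ℝ × ℝ)} {F G : Set (Set (ℝ × ℝ))}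
    {f : Set (ℝ × ℝ) → Set (ℝ × ℝ)} (h : IsIso F G f)
    (hF : IsProjectiveAlgebra F) (hS : ∀ i, S i ∈ F) :
    ∀ t, f (ev S t) = ev (fun i => f (S i)) t
  | .var i => rfl
  | .bot => h.map_empty hF
  | .union s t => by
      simp only [ev]
      rw [h.union _ (ev_mem hF hS s) _ (ev_mem hF hS t), map_ev h hF hS s, map_ev h hF hS t]
  | .inter s t => by
      simp only [ev]
      rw [h.inter _ (ev_mem hF hS s) _ (ev_mem hF hS t), map_ev h hF hS s, map_ev h hF hS t]
  | .compl s => by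
      simp only [ev]
      rw [h.compl _ (ev_mem hF hS s), map_ev h hF hS s]
  | .p1 s => by
      simp only [ev]
      rw [h.proj1 _ (ev_mem hF hS s), map_ev h hF hS s]
  | .p2 s => by
      simp only [ev]
      rw [h.proj2 _ (ev_mem hF hS s), map_ev h hF hS s]
  | .prod s t => by
      simp only [ev]
      rw [h.map_dprod hF (ev_mem hF hS s) (ev_mem hF hS t), map_ev h hF hS s, map_ev h hF hS t]

/-! ### The coding -/

/-- The plane set which codes `A`. -/
def code (A : Set ℕ) : Set (ℝ × ℝ) :=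
  {p | ∃ n : ℕ, p.2 = n ∧ (p.1 = n ∨ p.1 = n + 1 ∨ (n ∈ A ∧ p.1 = -(n + 1)))}

/-- forward image of a subset of the second axis -/
def fX (s : Tm 1) : Tm 1 := .p1 (.inter (.var 0) (.prod (.compl .bot) s))

/-- forward image of a subset of the first axis -/
def gY (s : Tm 1) : Tm 1 := .p2 (.inter (.var 0) (.prod s (.compl .bot)))

/-- the origin -/
def org : Tm 1 := .inter (.p1 (.compl .bot)) (.p2 (.compl .bot))

/-- difference -/
def df (s t : Tm 1) : Tm 1 := .inter s (.compl t)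

/-- the second axis without `s` -/
def cY (s : Tm 1) : Tm 1 := df (.p2 (.compl .bot)) s

/-- terms for the points `(n, 0)` and `(0, n)` -/
def PQ : ℕ → Tm 1 × Tm 1
  | 0 => (org, gY org)
  | n + 1 => (df (.inter (fX (PQ n).2) (fX (cY (PQ n).2))) (PQ n).1,
      df (gY (df (.inter (fX (PQ n).2) (fX (cY (PQ n).2))) (PQ n).1)) (PQ n).2)

/-- terms which test membership in `A` -/
def tst (n : ℕ) : Tm 1 := df (df (fX (PQ n).2) (fX (cY (PQ n).2))) org

theorem ev_fX (S : Fin 1 → Set (ℝ × ℝ)) (s : Tm 1) (B : Set ℝ)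
    (h : ev S s = {p | p.1 = 0 ∧ p.2 ∈ B}) :
    ev S (fX s) = {p | p.2 = 0 ∧ ∃ y ∈ B, (p.1, y) ∈ S 0} := by
  ext p
  simp only [fX, ev, h, proj1, dprod, mem_ofPred_eq, mem_inter_iff, compl_empty, mem_univ, true_and]
  constructor
  · rintro ⟨h1, y, h2, h3⟩
    exact ⟨h1, y, h3, h2⟩
  · rintro ⟨h1, y, h2, h3⟩
    exact ⟨h1, y, h3, h2⟩

theorem ev_gY (S : Fin 1 → Set (ℝ × ℝ)) (s : Tm 1) (B : Set ℝ)
    (h : ev S s = {p | p.2 = 0 ∧ p.1 ∈ B}) :
    ev S (gY s) = {p | p.1 = 0 ∧ ∃ x ∈ B, (x, p.2) ∈ S 0} := by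
  ext p
  simp only [gY, ev, h, proj2, dprod, mem_ofPred_eq, mem_inter_iff, compl_empty, mem_univ, true_and,
    and_true]
  constructor
  · rintro ⟨h1, y, h2, h3⟩
    exact ⟨h1, y, h3, h2⟩
  · rintro ⟨h1, y, h2, h3⟩
    exact ⟨h1, y, h3, h2⟩

theorem ev_cY (S : Fin 1 → Set (ℝ × ℝ)) (s : Tm 1) (B : Set ℝ)
    (h : ev S s = {p | p.1 = 0 ∧ p.2 ∈ B}) :
    ev S (cY s) = {p | p.1 = 0 ∧ p.2 ∈ Bᶜ} := by
  ext p
  simp only [cY, df, ev, h, proj2, mem_ofPred_eq, mem_inter_iff, mem_compl_iff, compl_empty,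
    mem_univ, exists_const, and_true]
  tauto

theorem ev_df (S : Fin 1 → Set (ℝ × ℝ)) (s t : Tm 1) : ev S (df s t) = ev S s \ ev S t := by
  simp only [df, ev]
  rfl

theorem ev_org (S : Fin 1 → Set (ℝ × ℝ)) : ev S org = {p | p.2 = 0 ∧ p.1 ∈ ({0} : Set ℝ)} := by
  ext p
  simp [org, ev, proj1, proj2]

theorem mem_code {A : Set ℕ} {x y : ℝ} : (x, y) ∈ code A ↔
    ∃ n : ℕ, y = n ∧ (x = n ∨ x = n + 1 ∨ (n ∈ A ∧ x = -(n + 1))) := Iff.rfl

theorem mem_code_nat {A : Set ℕ} {x : ℝ} {n : ℕ} : (x, (n : ℝ)) ∈ code A ↔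
    (x = n ∨ x = n + 1 ∨ (n ∈ A ∧ x = -(n + 1))) := by
  rw [mem_code]
  constructor
  · rintro ⟨m, h1, h2⟩
    have : n = m := by exact_mod_cast h1
    subst this
    exact h2
  · intro h
    exact ⟨n, rfl, h⟩

/-- the points of `code A` in the column of a natural number -/
theorem nat_mem_code {A : Set ℕ} {m : ℕ} {y : ℝ} : ((m : ℝ), y) ∈ code A ↔
    (y = m ∨ y + 1 = m ∧ ∃ n : ℕ, y = n) := by
  rw [mem_code]
  constructor
  · rintro ⟨n, h1, h2 | h2 | h2⟩
    · left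
      rw [h1, h2]
    · right
      exact ⟨by rw [h1, h2], n, h1⟩
    · exfalso
      have h3 : (0 : ℝ) ≤ m := Nat.cast_nonneg m
      have h4 : (0 : ℝ) ≤ n := Nat.cast_nonneg n
      linarith [h2.2]
  · rintro (h | ⟨h1, n, h2⟩)
    · exact ⟨m, h, Or.inl rfl⟩
    · exact ⟨n, h2, Or.inr (Or.inl (by rw [← h1, h2]))⟩

/-- common part: the points of the first axis in relation with `n` and with something else -/
theorem both {A : Set ℕ} {n : ℕ} {x : ℝ} :
    ((x, (n : ℝ)) ∈ code A ∧ ∃ y ∈ ({(n : ℝ)} : Set ℝ)ᶜ, (x, y) ∈ code A) ↔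
      (x = n ∧ n ≠ 0) ∨ x = n + 1 := by
  rw [mem_code_nat]
  constructor
  · rintro ⟨h1 | h1 | ⟨h1, h2⟩, y, hy, h3⟩
    · left
      refine ⟨h1, ?_⟩
      rintro rfl
      rw [h1] at h3
      rw [nat_mem_code] at h3
      rcases h3 with h3 | ⟨h3, k, h4⟩
      · exact hy (by simpa using h3)
      · rw [h4] at h3
        have : (0 : ℝ) ≤ k := Nat.cast_nonneg k
        push_cast at h3
        linarith
    · right
      exact h1
    · exfalso
      obtain ⟨k, h4, h5⟩ := h3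
      apply hy
      have h6 : (0 : ℝ) ≤ k := Nat.cast_nonneg k
      have h7 : (0 : ℝ) ≤ n := Nat.cast_nonneg n
      rcases h5 with h5 | h5 | ⟨_, h5⟩
      · simp only at h5
        linarith
      · simp only at h5
        linarith
      · simp only at h5
        simp only at h4
        rw [mem_singleton_iff, h4]
        linarith
  · rintro (⟨h1, h2⟩ | h1)
    · refine ⟨Or.inl h1, (n : ℝ) - 1, ?_, ?_⟩
      · simp
      · rw [h1, nat_mem_code]
        right
        refine ⟨by ring, n - 1, ?_⟩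
        rw [Nat.cast_sub (by omega)]
        simp
    · refine ⟨Or.inr (Or.inl h1), (n : ℝ) + 1, ?_, ?_⟩
      · simp
      · have h5 : x = ((n + 1 : ℕ) : ℝ) := by rw [h1]; push_cast; ring
        rw [h5, nat_mem_code]
        left
        push_cast
        ring

theorem ev_PQ (A : Set ℕ) : ∀ n : ℕ,
    ev (fun _ => code A) (PQ n).1 = {p | p.2 = 0 ∧ p.1 ∈ ({(n : ℝ)} : Set ℝ)} ∧
    ev (fun _ => code A) (PQ n).2 = {p | p.1 = 0 ∧ p.2 ∈ ({(n : ℝ)} : Set ℝ)}
  | 0 => by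
      refine ⟨by
        show ev (fun _ => code A) org = _
        simpa using ev_org (fun _ => code A), ?_⟩
      show ev (fun _ => code A) (gY org) = _
      rw [ev_gY _ _ _ (ev_org (fun _ => code A))]
      ext p
      simp only [mem_singleton_iff, exists_eq_left, mem_ofPred_eq]
      refine and_congr_right fun _ => ?_
      have := @nat_mem_code A 0 p.2
      rw [Nat.cast_zero] at this
      rw [this]
      constructor
      · rintro (h | ⟨h, k, h2⟩)
        · simpa using h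
        · exfalso
          have : (0 : ℝ) ≤ k := Nat.cast_nonneg k
          rw [h2] at h
          linarith
      · intro h
        left
        simpa using h
  | n + 1 => by
      obtain ⟨ih1, ih2⟩ := ev_PQ A n
      have e1 : ev (fun _ => code A) (PQ (n + 1)).1 =
          {p | p.2 = 0 ∧ p.1 ∈ ({((n + 1 : ℕ) : ℝ)} : Set ℝ)} := by
        show ev (fun _ => code A) (df (.inter (fX (PQ n).2) (fX (cY (PQ n).2))) (PQ n).1) = _
        rw [ev_df]
        simp only [ev]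
        rw [ev_fX _ _ _ ih2, ev_fX _ _ _ (ev_cY _ _ _ ih2), ih1]
        ext p
        simp only [mem_sdiff, mem_inter_iff, mem_ofPred_eq, mem_singleton_iff, exists_eq_left]
        have key := @both A n p.1
        constructor
        · rintro ⟨⟨⟨h1, h2⟩, _, h3⟩, h4⟩
          refine ⟨h1, ?_⟩
          rcases key.1 ⟨h2, h3⟩ with ⟨h5, _⟩ | h5
          · exact absurd ⟨h1, h5⟩ h4
          · rw [h5]; push_cast; ring
        · rintro ⟨h1, h2⟩
          have h3 : p.1 = n + 1 := by rw [h2]; push_cast; ring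
          obtain ⟨h4, h5⟩ := key.2 (Or.inr h3)
          refine ⟨⟨⟨h1, h4⟩, h1, h5⟩, ?_⟩
          rintro ⟨_, h6⟩
          rw [h3] at h6
          linarith
      refine ⟨e1, ?_⟩
      show ev (fun _ => code A) (df (gY (PQ (n + 1)).1) (PQ n).2) = _
      rw [ev_df, ev_gY _ _ _ e1, ih2]
      ext p
      simp only [mem_sdiff, mem_ofPred_eq, mem_singleton_iff, exists_eq_left, nat_mem_code]
      constructor
      · rintro ⟨⟨h1, h2 | ⟨h2, _⟩⟩, h3⟩
        · exact ⟨h1, h2⟩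
        · exfalso
          apply h3
          refine ⟨h1, ?_⟩
          push_cast at h2
          linarith
      · rintro ⟨h1, h2⟩
        refine ⟨⟨h1, Or.inl h2⟩, ?_⟩
        rintro ⟨_, h3⟩
        rw [h2] at h3
        push_cast at h3
        linarith

theorem ev_tst (A : Set ℕ) (n : ℕ) : ev (fun _ => code A) (tst n) = ∅ ↔ n ∉ A := by
  obtain ⟨_, h2⟩ := ev_PQ A n
  have e : ev (fun _ => code A) (tst n) = {p | p.2 = 0 ∧ n ∈ A ∧ p.1 = -((n : ℝ) + 1)} := by
    rw [tst, ev_df, ev_df, ev_fX _ _ _ h2, ev_fX _ _ _ (ev_cY _ _ _ h2), ev_org]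
    ext p
    simp only [mem_sdiff, mem_ofPred_eq, mem_singleton_iff, exists_eq_left]
    have key := @both A n p.1
    have hn : (0 : ℝ) ≤ n := Nat.cast_nonneg n
    constructor
    · rintro ⟨⟨⟨h3, h4⟩, h5⟩, h6⟩
      refine ⟨h3, ?_⟩
      have h7 : ¬ ((p.1 = n ∧ n ≠ 0) ∨ p.1 = n + 1) := by
        intro h8
        exact h5 ⟨h3, (key.2 h8).2⟩
      push Not at h7
      rcases mem_code_nat.1 h4 with h8 | h8 | h8
      · exfalso
        by_cases hn0 : n = 0
        · apply h6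
          refine ⟨h3, ?_⟩
          rw [h8, hn0]
          simp
        · exact hn0 (by_contra fun h => h7.1 h8 |> fun h' => h h')
      · exact absurd h8 h7.2
      · exact h8
    · rintro ⟨h3, h4, h5⟩
      refine ⟨⟨⟨h3, mem_code_nat.2 (Or.inr (Or.inr ⟨h4, h5⟩))⟩, ?_⟩, ?_⟩
      · rintro ⟨_, h6⟩
        rcases key.1 ⟨mem_code_nat.2 (Or.inr (Or.inr ⟨h4, h5⟩)), h6⟩ with ⟨h7, _⟩ | h7
        · linarith
        · linarith
      · rintro ⟨_, h6⟩
        linarith
  rw [e]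
  constructor
  · intro h hn
    have : ((-((n : ℝ) + 1), (0 : ℝ)) : ℝ × ℝ) ∈ (∅ : Set (ℝ × ℝ)) := by
      rw [← h]
      exact ⟨rfl, hn, rfl⟩
    exact this
  · intro h
    ext p
    simp [h]

end Pool.Agent.W916.PA
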