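import Pool.Agent.W916.ProjAlg

set_option autoImplicit false

/-!
# Counting projective algebras of plane sets
-/

namespace Pool.Agent.W916.PA

open Set

/-- If `f` is an isomorphism defined on a projective algebra containing the coding set of `A` then
the image of the coding set determines `A`. -/
theorem code_inj {F G F' G' : Set (Set (ℝ × ℝ))} {f f' : Set (ℝ × ℝ) → Set (ℝ × ℝ)}
    (h : IsIso F G f) (h' : IsIso F' G' f') (hF : IsProjectiveAlgebra F)
    (hF' : IsProjectiveAlgebra F') {A A' : Set ℕ} (hA : code A ∈ F) (hA' : code A' ∈ F')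
    (e : f (code A) = f' (code A')) : A = A' := by
  ext n
  rw [← not_iff_not, ← ev_tst A n, ← ev_tst A' n,
    ← h.eq_empty_iff hF (ev_mem hF (fun _ => hA) _),
    ← h'.eq_empty_iff hF' (ev_mem hF' (fun _ => hA') _),
    map_ev h hF (fun _ => hA), map_ev h' hF' (fun _ => hA'), e]

theorem generated_countable {k : ℕ} (S : Fin k → Set (ℝ × ℝ)) :
    (generated (range S)).Countable := by
  rw [← range_ev]
  exact countable_range _

theorem range_const_one (B : Set (ℝ × ℝ)) : range (fun _ : Fin 1 => B) = {B} := by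
  ext x
  simp [eq_comm]

/-- the algebras generated by tuples with the same relations are isomorphic -/
theorem isomorphic_of_kernel {k : ℕ} (S T : Fin k → Set (ℝ × ℝ))
    (h : ∀ s t, ev S s = ev S t ↔ ev T s = ev T t) :
    Isomorphic (generated (range S)) (generated (range T)) := by
  classical
  rw [← range_ev, ← range_ev]
  let f : Set (ℝ × ℝ) → Set (ℝ × ℝ) := fun U =>
    if hU : ∃ t, ev S t = U then ev T hU.choose else ∅
  have hf : ∀ t, f (ev S t) = ev T t := by
    intro t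
    have hU : ∃ t', ev S t' = ev S t := ⟨t, rfl⟩
    have : f (ev S t) = ev T hU.choose := dif_pos hU
    rw [this]
    exact (h _ _).1 hU.choose_spec
  refine ⟨f, ⟨?_, ?_, ?_⟩, ?_, ?_, ?_, ?_, ?_, ?_⟩
  · rintro _ ⟨t, rfl⟩
    rw [hf]
    exact ⟨t, rfl⟩
  · rintro _ ⟨s, rfl⟩ _ ⟨t, rfl⟩ e
    rw [hf, hf] at e
    exact (h _ _).2 e
  · rintro _ ⟨t, rfl⟩
    exact ⟨_, ⟨t, rfl⟩, hf t⟩
  · rintro _ ⟨s, rfl⟩ _ ⟨t, rfl⟩
    exact (hf (.union s t)).trans (by rw [hf, hf]; rfl)
  · rintro _ ⟨s, rfl⟩ _ ⟨t, rfl⟩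
    exact (hf (.inter s t)).trans (by rw [hf, hf]; rfl)
  · rintro _ ⟨s, rfl⟩
    exact (hf (.compl s)).trans (by rw [hf]; rfl)
  · rintro _ ⟨s, rfl⟩
    exact (hf (.p1 s)).trans (by rw [hf]; rfl)
  · rintro _ ⟨s, rfl⟩
    exact (hf (.p2 s)).trans (by rw [hf]; rfl)
  · rintro _ ⟨s, rfl⟩ _ ⟨t, rfl⟩ _ _
    exact (hf (.prod s t)).trans (by rw [hf, hf]; rfl)

namespace IsIso

variable {F G H : Set (Set (ℝ × ℝ))} {f g : Set (ℝ × ℝ) → Set (ℝ × ℝ)}

theorem trans (h1 : IsIso F G f) (h2 : IsIso G H g)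
    (hF : IsProjectiveAlgebra F) : IsIso F H (g ∘ f) where
  bij := h2.bij.comp h1.bij
  union := fun S hS T hT => by
    simp only [Function.comp]
    rw [h1.union S hS T hT, h2.union _ (h1.bij.mapsTo hS) _ (h1.bij.mapsTo hT)]
  inter := fun S hS T hT => by
    simp only [Function.comp]
    rw [h1.inter S hS T hT, h2.inter _ (h1.bij.mapsTo hS) _ (h1.bij.mapsTo hT)]
  compl := fun S hS => by
    simp only [Function.comp]
    rw [h1.compl S hS, h2.compl _ (h1.bij.mapsTo hS)]
  proj1 := fun S hS => by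
    simp only [Function.comp]
    rw [h1.proj1 S hS, h2.proj1 _ (h1.bij.mapsTo hS)]
  proj2 := fun S hS => by
    simp only [Function.comp]
    rw [h1.proj2 S hS, h2.proj2 _ (h1.bij.mapsTo hS)]
  dprod := fun A hA B hB h3 h4 => by
    have h5 : ∀ C ∈ F, C ⊆ axisX → f C ⊆ axisX := by
      intro C hC h
      rw [← inter_eq_left] at h ⊢
      rw [← h1.map_axisX hF, ← h1.inter _ hC _ hF.axisX_mem, h]
    have h6 : ∀ C ∈ F, C ⊆ axisY → f C ⊆ axisY := by
      intro C hC h
      rw [← inter_eq_left] at h ⊢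
      rw [← h1.map_axisY hF, ← h1.inter _ hC _ hF.axisY_mem, h]
    simp only [Function.comp]
    rw [h1.dprod A hA B hB h3 h4, h2.dprod _ (h1.bij.mapsTo hA) _ (h1.bij.mapsTo hB)
      (h5 A hA h3) (h6 B hB h4)]

theorem symm (h : IsIso F G f) (hF : IsProjectiveAlgebra F) :
    IsIso G F (Function.invFunOn f F) := by
  have hg : BijOn (Function.invFunOn f F) G F := h.bij.symm h.bij.invOn_invFunOn.symm
  have key : ∀ X ∈ F, Function.invFunOn f F (f X) = X := fun X hX => h.bij.invOn_invFunOn.1 hX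
  have key2 : ∀ X ∈ G, f (Function.invFunOn f F X) = X := fun X hX => h.bij.invOn_invFunOn.2 hX
  have hm : ∀ X ∈ G, Function.invFunOn f F X ∈ F := fun X hX => hg.mapsTo hX
  refine ⟨hg, ?_, ?_, ?_, ?_, ?_, ?_⟩
  · intro S hS T hT
    conv_lhs => rw [← key2 S hS, ← key2 T hT]
    rw [← h.union _ (hm S hS) _ (hm T hT), key _ (hF.union_mem _ (hm S hS) _ (hm T hT))]
  · intro S hS T hT
    conv_lhs => rw [← key2 S hS, ← key2 T hT]
    rw [← h.inter _ (hm S hS) _ (hm T hT), key _ (hF.inter_mem _ (hm S hS) _ (hm T hT))]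
  · intro S hS
    conv_lhs => rw [← key2 S hS]
    rw [← h.compl _ (hm S hS), key _ (hF.compl_mem _ (hm S hS))]
  · intro S hS
    conv_lhs => rw [← key2 S hS]
    rw [← h.proj1 _ (hm S hS), key _ (hF.proj1_mem _ (hm S hS))]
  · intro S hS
    conv_lhs => rw [← key2 S hS]
    rw [← h.proj2 _ (hm S hS), key _ (hF.proj2_mem _ (hm S hS))]
  · intro A hA B hB _ _
    conv_lhs => rw [← key2 A hA, ← key2 B hB]
    rw [← h.map_dprod hF (hm A hA) (hm B hB), key _ (hF.dprod_mem' (hm A hA) (hm B hB))]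

end IsIso

/-- a bound for the number of classes of an equivalence relation with small classes -/
theorem le_card_of_fibres {X Q : Type} (h : X → Q) (κ : Cardinal)
    (hX : Cardinal.aleph0 ≤ Cardinal.mk X)
    (hκ : κ < Cardinal.mk X) (hfib : ∀ x, Cardinal.mk {y // h y = h x} ≤ κ) :
    Cardinal.mk X ≤ Cardinal.mk Q := by
  by_contra hcon
  push Not at hcon
  have h1 : Cardinal.mk X = Cardinal.mk (Σ q : Q, {y : X // h y = q}) :=
    Cardinal.mk_congr (Equiv.sigmaFiberEquiv h).symm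
  have h2 : Cardinal.mk (Σ q : Q, {y : X // h y = q}) ≤ Cardinal.mk Q * κ := by
    rw [Cardinal.mk_sigma]
    refine (Cardinal.sum_le_sum _ (fun _ => κ) (fun q => ?_)).trans ?_
    · by_cases hq : ∃ x, h x = q
      · obtain ⟨x, rfl⟩ := hq
        exact hfib x
      · have : IsEmpty {y : X // h y = q} := ⟨fun y => hq ⟨y.1, y.2⟩⟩
        rw [Cardinal.mk_eq_zero]
        exact bot_le
    · simp
  have h3 : Cardinal.mk Q * κ < Cardinal.mk X := Cardinal.mul_lt_of_lt hX hcon hκ
  exact absurd (h1.le.trans h2) (not_le.mpr h3)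

end Pool.Agent.W916.PA
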